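import Pool.Agent.Q116.Golden.Spec

set_option autoImplicit false

/-!
# Lower-order term for the maximum multiplicity of a graph eigenvalue (MP_4bb7d7_co, Q1)

The golden ratio `φ` (degree 2, an eigenvalue of the path on four vertices) satisfies
`E_s(n, φ) ≤ n / 2 - √n / 20` for all `n ≥ 100`.
-/

namespace Pool.Agent.Results.MP_4bb7d7_co.GoldenMultiplicity

open Polynomial Q116.Golden

open scoped Classical in
/-- The multiplicity (geometric) of the real number `lam` as an eigenvalue of the adjacency
matrix of `G`. -/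
noncomputable def mult {n : ℕ} (G : SimpleGraph (Fin n)) (lam : ℝ) : ℕ :=
  Module.finrank ℝ (Module.End.eigenspace (Matrix.toLin' (G.adjMatrix ℝ)) lam)

open scoped Classical in
/-- `E_s(n, lam)`: the maximum multiplicity of `lam` over all graphs on `n` vertices
(`0` if `lam` is not an eigenvalue of any of them). -/
noncomputable def maxMult (n : ℕ) (lam : ℝ) : ℕ :=
  (Finset.univ : Finset (SimpleGraph (Fin n))).sup fun G => mult G lam

/-! ### The golden ratio -/

noncomputable def q : ℚ[X] := X ^ 2 - X - 1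

theorem q_monic : q.Monic := by unfold q; monicity!

theorem q_natDegree : q.natDegree = 2 := by unfold q; compute_degree!

theorem q_aeval (x : ℝ) : aeval x q = (x - Real.goldenRatio) * (x - Real.goldenConj) := by
  have h1 := Real.goldenRatio_add_goldenConj
  have h2 := Real.goldenRatio_mul_goldenConj
  unfold q
  simp only [map_sub, map_pow, aeval_X, map_one]
  linear_combination (-1 : ℝ) * (-x) * h1 + (-1 : ℝ) * h2

theorem q_irr : Irreducible q := by
  rw [q_monic.irreducible_iff_roots_eq_zero_of_degree_le_three (by rw [q_natDegree])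
    (by rw [q_natDegree]; norm_num)]
  rw [Multiset.eq_zero_iff_forall_notMem]
  intro x hx
  have h1 := (Polynomial.mem_roots'.1 hx).2
  rw [Polynomial.IsRoot.def] at h1
  have h2 : aeval (x : ℝ) q = 0 := by
    have : aeval (algebraMap ℚ ℝ x) q = algebraMap ℚ ℝ (eval x q) := by
      rw [Polynomial.aeval_algebraMap_apply]; simp
    rw [h1, map_zero] at this
    simpa using this
  rw [q_aeval, mul_eq_zero] at h2
  rcases h2 with h2 | h2
  · exact Real.goldenRatio_irrational ⟨x, by linarith⟩
  · exact Real.goldenConj_irrational ⟨x, by linarith⟩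

theorem minpoly_golden : minpoly ℚ Real.goldenRatio = q :=
  (minpoly.eq_of_irreducible_of_monic q_irr (by rw [q_aeval]; ring) q_monic).symm

theorem minpoly_conj : minpoly ℚ Real.goldenConj = q :=
  (minpoly.eq_of_irreducible_of_monic q_irr (by rw [q_aeval]; ring) q_monic).symm

theorem golden_integral : IsIntegral ℤ Real.goldenRatio := by
  refine ⟨X ^ 2 - X - 1, by monicity!, ?_⟩
  have := Real.goldenRatio_sq
  simp only [eval₂_sub, eval₂_pow, eval₂_X, eval₂_one]
  linarith

theorem golden_degree : (minpoly ℤ Real.goldenRatio).natDegree = 2 := by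
  have h := minpoly.isIntegrallyClosed_eq_field_fractions' ℚ golden_integral
  rw [minpoly_golden] at h
  have h2 : (minpoly ℤ Real.goldenRatio).natDegree =
      ((minpoly ℤ Real.goldenRatio).map (algebraMap ℤ ℚ)).natDegree := by
    rw [Polynomial.Monic.natDegree_map (minpoly.monic golden_integral)]
  rw [h2, ← h, q_natDegree]

/-- Conjugate roots of a rational polynomial have the same multiplicity. -/
theorem rootMult_eq (p : ℚ[X]) (hp : p ≠ 0) :
    (p.map (algebraMap ℚ ℝ)).rootMultiplicity Real.goldenRatio =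
      (p.map (algebraMap ℚ ℝ)).rootMultiplicity Real.goldenConj := by
  obtain ⟨g, hg1, hg2⟩ := (FiniteMultiplicity.of_prime_left q_irr.prime hp).exists_eq_pow_mul_and_not_dvd
  set k := multiplicity q p with hk
  have hg0 : g ≠ 0 := fun h => hg2 (h ▸ dvd_zero q)
  have hqm : q.map (algebraMap ℚ ℝ) = (X - C Real.goldenRatio) * (X - C Real.goldenConj) := by
    unfold q
    have h1 := Real.goldenRatio_add_goldenConj
    have h2 := Real.goldenRatio_mul_goldenConj
    have h3 : (C Real.goldenRatio : ℝ[X]) + C Real.goldenConj = 1 := by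
      rw [← C_add, h1, C_1]
    have h4 : (C Real.goldenRatio : ℝ[X]) * C Real.goldenConj = -1 := by
      rw [← C_mul, h2, C_neg, C_1]
    simp only [Polynomial.map_sub, Polynomial.map_pow, map_X, Polynomial.map_one]
    linear_combination X * h3 - h4
  have hgφ : (g.map (algebraMap ℚ ℝ)).rootMultiplicity Real.goldenRatio = 0 := by
    apply rootMultiplicity_eq_zero
    intro h
    apply hg2
    rw [← minpoly_golden]
    apply minpoly.dvd
    rw [IsRoot.def, eval_map_algebraMap] at h
    exact h
  have hgψ : (g.map (algebraMap ℚ ℝ)).rootMultiplicity Real.goldenConj = 0 := by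
    apply rootMultiplicity_eq_zero
    intro h
    apply hg2
    rw [← minpoly_conj]
    apply minpoly.dvd
    rw [IsRoot.def, eval_map_algebraMap] at h
    exact h
  have hne : Real.goldenRatio ≠ Real.goldenConj := by
    have h1 := Real.goldenRatio_pos
    have h2 := Real.goldenConj_neg
    linarith
  have hgm : g.map (algebraMap ℚ ℝ) ≠ 0 := by
    rw [Polynomial.map_ne_zero_iff (algebraMap ℚ ℝ).injective]
    exact hg0
  have e : p.map (algebraMap ℚ ℝ) = (X - C Real.goldenRatio) ^ k * (X - C Real.goldenConj) ^ k *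
      g.map (algebraMap ℚ ℝ) := by
    conv_lhs => rw [hg1]
    rw [Polynomial.map_mul, Polynomial.map_pow, hqm, mul_pow]
  have n1 : (X - C Real.goldenRatio : ℝ[X]) ^ k ≠ 0 := pow_ne_zero _ (X_sub_C_ne_zero _)
  have n2 : (X - C Real.goldenConj : ℝ[X]) ^ k ≠ 0 := pow_ne_zero _ (X_sub_C_ne_zero _)
  have z1 : ((X - C Real.goldenConj : ℝ[X]) ^ k).rootMultiplicity Real.goldenRatio = 0 := by
    apply rootMultiplicity_eq_zero
    rw [IsRoot.def, eval_pow, eval_sub, eval_X, eval_C]
    exact pow_ne_zero _ (sub_ne_zero.2 hne)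
  have z2 : ((X - C Real.goldenRatio : ℝ[X]) ^ k).rootMultiplicity Real.goldenConj = 0 := by
    apply rootMultiplicity_eq_zero
    rw [IsRoot.def, eval_pow, eval_sub, eval_X, eval_C]
    exact pow_ne_zero _ (sub_ne_zero.2 hne.symm)
  rw [e, rootMultiplicity_mul (mul_ne_zero (mul_ne_zero n1 n2) hgm),
    rootMultiplicity_mul (mul_ne_zero n1 n2), rootMultiplicity_X_sub_C_pow, z1, hgφ,
    rootMultiplicity_mul (mul_ne_zero (mul_ne_zero n1 n2) hgm),
    rootMultiplicity_mul (mul_ne_zero n1 n2), rootMultiplicity_X_sub_C_pow, z2, hgψ]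
  ring

theorem card_eig {n : ℕ} (A : Matrix (Fin n) (Fin n) ℝ) (hA : A.IsHermitian) (x : ℝ) :
    (Finset.univ.filter (fun s => hA.eigenvalues s = x)).card = A.charpoly.rootMultiplicity x := by
  classical
  rw [← Polynomial.count_roots, hA.roots_charpoly_eq_eigenvalues, Multiset.count_map]
  simp only [Finset.card_def, Finset.filter_val]
  congr 1
  apply Multiset.filter_congr
  intro a _
  simp [eq_comm]

open scoped Classical in
theorem ineq {n : ℕ} (G : SimpleGraph (Fin n)) :
    ∃ m : ℕ, mult G Real.goldenRatio ≤ m ∧ 2 * m ≤ n ∧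
      (m : ℝ) ^ 2 ≤ (((n - 2 * m) ^ 2 + (n - 2 * m) : ℕ) : ℝ) * (24 * m) := by
  set A := G.adjMatrix ℝ with hAdef
  have hA : A.IsHermitian := by
    rw [Matrix.IsHermitian, hAdef, Matrix.conjTranspose_eq_transpose_of_trivial,
      SimpleGraph.transpose_adjMatrix]
  set S1 := Finset.univ.filter (fun s => hA.eigenvalues s = Real.goldenRatio) with hS1
  set S2 := Finset.univ.filter (fun s => hA.eigenvalues s = Real.goldenConj) with hS2
  have hne : Real.goldenRatio ≠ Real.goldenConj := by
    have h1 := Real.goldenRatio_pos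
    have h2 := Real.goldenConj_neg
    linarith
  have hAq : A = (G.adjMatrix ℚ).map (algebraMap ℚ ℝ) := by
    ext i j
    rw [hAdef, Matrix.map_apply, SimpleGraph.adjMatrix_apply, SimpleGraph.adjMatrix_apply]
    split_ifs <;> simp
  have hc : A.charpoly = (G.adjMatrix ℚ).charpoly.map (algebraMap ℚ ℝ) := by
    rw [hAq, Matrix.charpoly_map]
  have hcard : S1.card = S2.card := by
    rw [hS1, hS2, card_eig, card_eig, hc]
    exact rootMult_eq _ (Matrix.charpoly_monic _).ne_zero
  have hdisj : Disjoint S1 S2 := by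
    rw [Finset.disjoint_left]
    intro s h1 h2
    rw [hS1, Finset.mem_filter] at h1
    rw [hS2, Finset.mem_filter] at h2
    exact hne (h1.2.symm.trans h2.2)
  have hU : (S1 ∪ S2).card = 2 * S1.card := by
    rw [Finset.card_union_of_disjoint hdisj, ← hcard]; ring
  have hle : 2 * S1.card ≤ n := by
    rw [← hU]
    exact (Finset.card_le_univ _).trans (by simp)
  refine ⟨S1.card, ?_, hle, ?_⟩
  · unfold mult
    refine (LinearMap.finrank_eigenspace_le _ _).trans ?_
    rw [Matrix.charpoly_toLin', hS1, card_eig]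
  · have h := main_ineq A hA (by
        intro i j
        rw [hAdef, SimpleGraph.adjMatrix_apply]
        split_ifs
        · exact Or.inr rfl
        · exact Or.inl rfl) (by
        intro i
        rw [hAdef, SimpleGraph.adjMatrix_apply]
        simp) (S1 ∪ S2) S1.card (by
        intro s hs
        rw [Finset.mem_union, hS1, hS2, Finset.mem_filter, Finset.mem_filter] at hs
        rcases hs with hs | hs
        · rw [hs.2, Real.goldenRatio_sq]
          linarith [Real.goldenRatio_lt_two]
        · rw [hs.2, Real.goldenConj_sq]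
          linarith [Real.goldenConj_neg]) (by
        rw [Finset.sum_union hdisj]
        rw [Finset.sum_congr rfl (fun s hs => (Finset.mem_filter.1 hs).2),
          Finset.sum_congr (s₁ := S2) rfl (fun s hs => (Finset.mem_filter.1 hs).2)]
        rw [Finset.sum_const, Finset.sum_const, ← hcard, nsmul_eq_mul, nsmul_eq_mul, ← mul_add,
          Real.goldenRatio_add_goldenConj, mul_one]) (by
        rw [Finset.sum_union hdisj]
        rw [Finset.sum_congr rfl (fun s hs => by rw [(Finset.mem_filter.1 hs).2]),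
          Finset.sum_congr (s₁ := S2) rfl (fun s hs => by rw [(Finset.mem_filter.1 hs).2])]
        rw [Finset.sum_const, Finset.sum_const, ← hcard, nsmul_eq_mul, nsmul_eq_mul, ← mul_add,
          Real.goldenRatio_sq, Real.goldenConj_sq]
        have := Real.goldenRatio_add_goldenConj
        rw [show Real.goldenRatio + 1 + (Real.goldenConj + 1) =
          (Real.goldenRatio + Real.goldenConj) + 2 by ring, this]
        ring)
    have hcc : (S1 ∪ S2)ᶜ.card = n - 2 * S1.card := by
      rw [Finset.card_compl, hU, Fintype.card_fin]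
    rw [hcc] at h
    exact h

theorem bound {n : ℕ} (hn : 100 ≤ n) (G : SimpleGraph (Fin n)) :
    (mult G Real.goldenRatio : ℝ) ≤ n / 2 - 1 / 20 * Real.sqrt n := by
  obtain ⟨m, h1, h2, h3⟩ := ineq G
  have h1' : (mult G Real.goldenRatio : ℝ) ≤ m := by exact_mod_cast h1
  refine h1'.trans ?_
  by_contra hcon
  push Not at hcon
  set t := Real.sqrt n with ht
  have ht2 : t ^ 2 = n := Real.sq_sqrt (by positivity)
  have ht10 : 10 ≤ t := by
    rw [ht]
    apply Real.le_sqrt_of_sq_le
    have : (100 : ℝ) ≤ n := by exact_mod_cast hn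
    linarith
  have hr : ((n - 2 * m : ℕ) : ℝ) = n - 2 * m := by
    rw [Nat.cast_sub h2]; push_cast; ring
  push_cast at h3
  rw [hr] at h3
  set r := (n : ℝ) - 2 * m with hrdef
  have hr0 : 0 ≤ r := by
    have : (2 * m : ℝ) ≤ n := by exact_mod_cast h2
    linarith
  have hrt : r < t / 10 := by linarith
  have hm0 : 0 < (m : ℝ) := by nlinarith
  have h4 : (m : ℝ) ≤ 24 * (r ^ 2 + r) := by
    have : (m : ℝ) * m ≤ (24 * (r ^ 2 + r)) * m := by nlinarith
    exact le_of_mul_le_mul_right this hm0
  have h5 : r ^ 2 ≤ (t / 10) ^ 2 := pow_le_pow_left₀ hr0 hrt.le 2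
  nlinarith

theorem path_mult : 0 < mult (SimpleGraph.pathGraph 4) Real.goldenRatio := by
  classical
  unfold mult
  rw [Module.finrank_pos_iff]
  rw [Submodule.nontrivial_iff_ne_bot]
  intro hbot
  set v : Fin 4 → ℝ := ![1, Real.goldenRatio, Real.goldenRatio, 1] with hv
  have hmem : v ∈ Module.End.eigenspace
      (Matrix.toLin' ((SimpleGraph.pathGraph 4).adjMatrix ℝ)) Real.goldenRatio := by
    rw [Module.End.mem_eigenspace_iff, Matrix.toLin'_apply]
    have hsq := Real.goldenRatio_sq
    ext i
    rw [Matrix.mulVec, dotProduct]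
    fin_cases i <;>
      simp [Fin.sum_univ_four, SimpleGraph.adjMatrix_apply, SimpleGraph.pathGraph_adj, hv] <;>
      nlinarith
  rw [hbot, Submodule.mem_bot] at hmem
  have := congrFun hmem 0
  simp [hv] at this

/-- **Q1 of MP_4bb7d7_co.** The golden ratio is an algebraic integer of degree `d = 2`, an
eigenvalue of a graph, and `E_s(n, lam) ≤ n / d - c √n` for all large `n`, with `c = 1 / 20`. -/
theorem result : ∃ lam : ℝ, lam = (1 + Real.sqrt 5) / 2 ∧ IsIntegral ℤ lam ∧
    2 ≤ (minpoly ℤ lam).natDegree ∧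
    (∃ (k : ℕ) (G : SimpleGraph (Fin k)), 0 < mult G lam) ∧
    ∃ c : ℝ, 0 < c ∧ ∃ n₀ : ℕ, ∀ n : ℕ, n₀ ≤ n →
      (maxMult n lam : ℝ) ≤ (n : ℝ) / (minpoly ℤ lam).natDegree - c * Real.sqrt n := by
  classical
  refine ⟨Real.goldenRatio, rfl, golden_integral, golden_degree.ge,
    ⟨4, SimpleGraph.pathGraph 4, path_mult⟩, 1 / 20, by norm_num, 100, ?_⟩
  intro n hn
  rw [golden_degree]
  unfold maxMult
  obtain ⟨G, _, hG⟩ := Finset.exists_mem_eq_sup (Finset.univ : Finset (SimpleGraph (Fin n)))
    ⟨⊥, Finset.mem_univ _⟩ (fun G => mult G Real.goldenRatio)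
  rw [hG]
  exact_mod_cast bound hn G

end Pool.Agent.Results.MP_4bb7d7_co.GoldenMultiplicity
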